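import Mathlib

/-!
Comparability orderings of digraphs and the adjacency matrix of a digraph as a bit string.
-/

namespace Pool.Agent.Lib.MP_8b4e11_lc

/-- `lt` is a comparability ordering of the digraph on `V` with arc relation `A`: a (strict)
linear order on `V` such that for all `x ≺ y ≺ z`, the arcs `xy` and `yz` together imply the arc
`xz`, and the arcs `zy` and `yx` together imply the arc `zx`. -/
def IsComparabilityOrdering {V : Type} (A : V → V → Prop) (lt : V → V → Prop) : Prop :=
  IsStrictTotalOrder V lt ∧ ∀ x y z, lt x y → lt y z →
    (A x y → A y z → A x z) ∧ (A z y → A y x → A z x)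

/-- The adjacency matrix of the digraph on `{0, …, n - 1}` with arc relation `A`, written row by
row as a word of `n * n` bits. -/
def matrixWord (n : ℕ) (A : Fin n → Fin n → Bool) : List Bool :=
  (List.ofFn fun i => List.ofFn (A i)).flatten

/-- The recognition problem for comparability digraphs, as a set of bit strings: the adjacency
matrices of comparability digraphs (which have no loops). -/
def comparabilityDigraphs : Set (List Bool) :=
  {w | ∃ (n : ℕ) (A : Fin n → Fin n → Bool), w = matrixWord n A ∧ (∀ i, A i i = false) ∧
    ∃ lt : Fin n → Fin n → Prop, IsComparabilityOrdering (fun i j => A i j = true) lt}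

end Pool.Agent.Lib.MP_8b4e11_lc
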