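import Pool.Agent.Lib.MP_8b4e11_lc.Matrix
import Pool.Agent.Lib.CookLevin.Raw

/-!
Recognising comparability digraphs is in NP: the certificate is the matrix of a linear order.
-/

namespace Pool.Agent.Lib.MP_8b4e11_lc

open Pool.Agent.CookLevin Pool.Agent.PolyTime

/-- Entry `(i, j)` of the `n × n` matrix written in `w`. -/
def entry (w : List Bool) (n i j : ℕ) : Bool := decide ((true, i * n + j) ∈ w.zipIdx)

theorem entry_iff {w : List Bool} {n i j : ℕ} :
    entry w n i j = true ↔ w[i * n + j]? = some true := by
  rw [entry, decide_eq_true_eq, List.mk_mem_zipIdx_iff_getElem?]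

/-- The conditions on three vertices. -/
def check3 (x u : List Bool) (n i j k : ℕ) : Bool :=
  !(entry u n i j && entry u n j k) || (entry u n i k &&
    ((!(entry x n i j && entry x n j k) || entry x n i k) &&
      (!(entry x n k j && entry x n j i) || entry x n k i)))

/-- The conditions on two vertices. -/
def check2 (x u : List Bool) (n i j : ℕ) : Bool :=
  (decide (i = j) || (entry u n i j || entry u n j i)) &&
    (List.range n).all fun k => check3 x u n i j k

/-- The conditions on a vertex. -/
def check1 (x u : List Bool) (n i : ℕ) : Bool :=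
  (!entry x n i i && !entry u n i i) && (List.range n).all fun j => check2 x u n i j

/-- All conditions. -/
def check0 (x u : List Bool) (n : ℕ) : Bool :=
  decide (n * n = x.length) && (List.range n).all fun i => check1 x u n i

/-- The verifier. -/
def verify (q : List Bool × List Bool) : Bool :=
  (List.range (q.1.length + 1)).any fun n => check0 q.1 q.2 n

section ptime
variable {α : Type} [Enc α] {w x u : α → List Bool} {n i j k : α → ℕ}

theorem ptime_entry (hw : PTime w) (hn : PTime n) (hi : PTime i) (hj : PTime j) :
    PTime (fun a => entry (w a) (n a) (i a) (j a)) := by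
  have h1 : PTime (fun a => (true, i a * n a + j a)) :=
    (PTime.const true).pair ((hi.mul hn).add hj)
  exact (PTime.mem h1 hw.zipIdx).of_eq fun _ => decide_eq_decide.2 Iff.rfl

theorem ptime_check3 (hx : PTime x) (hu : PTime u) (hn : PTime n) (hi : PTime i) (hj : PTime j)
    (hk : PTime k) : PTime (fun a => check3 (x a) (u a) (n a) (i a) (j a) (k a)) := by
  unfold check3
  exact (((ptime_entry hu hn hi hj).and (ptime_entry hu hn hj hk)).not).or
    ((ptime_entry hu hn hi hk).and
      (((((ptime_entry hx hn hi hj).and (ptime_entry hx hn hj hk)).not).or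
        (ptime_entry hx hn hi hk)).and
      ((((ptime_entry hx hn hk hj).and (ptime_entry hx hn hj hi)).not).or
        (ptime_entry hx hn hk hi))))

theorem ptime_check2 (hx : PTime x) (hu : PTime u) (hn : PTime n) (hi : PTime i) (hj : PTime j) :
    PTime (fun a => check2 (x a) (u a) (n a) (i a) (j a)) := by
  unfold check2
  refine ((PTime.eq hi hj).or ((ptime_entry hu hn hi hj).or (ptime_entry hu hn hj hi))).and ?_
  refine PTime.all (g := fun a k => check3 (x a) (u a) (n a) (i a) (j a) k) hn.range ?_
  exact ptime_check3 (hx.comp PTime.fst) (hu.comp PTime.fst) (hn.comp PTime.fst)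
    (hi.comp PTime.fst) (hj.comp PTime.fst) PTime.snd

theorem ptime_check1 (hx : PTime x) (hu : PTime u) (hn : PTime n) (hi : PTime i) :
    PTime (fun a => check1 (x a) (u a) (n a) (i a)) := by
  unfold check1
  refine ((ptime_entry hx hn hi hi).not.and (ptime_entry hu hn hi hi).not).and ?_
  refine PTime.all (g := fun a j => check2 (x a) (u a) (n a) (i a) j) hn.range ?_
  exact ptime_check2 (hx.comp PTime.fst) (hu.comp PTime.fst) (hn.comp PTime.fst)
    (hi.comp PTime.fst) PTime.snd

theorem ptime_check0 (hx : PTime x) (hu : PTime u) (hn : PTime n) :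
    PTime (fun a => check0 (x a) (u a) (n a)) := by
  unfold check0
  refine (PTime.eq (hn.mul hn) hx.length).and ?_
  refine PTime.all (g := fun a i => check1 (x a) (u a) (n a) i) hn.range ?_
  exact ptime_check1 (hx.comp PTime.fst) (hu.comp PTime.fst) (hn.comp PTime.fst) PTime.snd

theorem ptime_verify : PTime verify := by
  unfold verify
  refine PTime.any (g := fun (q : List Bool × List Bool) n => check0 q.1 q.2 n)
    (PTime.fst.length.succ).range ?_
  exact ptime_check0 (PTime.fst.comp PTime.fst) (PTime.snd.comp PTime.fst) PTime.snd

end ptime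

theorem verify_iff (x u : List Bool) : verify (x, u) = true ↔ ∃ n, n * n = x.length ∧
    ∀ i < n, (entry x n i i = false ∧ entry u n i i = false) ∧
      ∀ j < n, (i = j ∨ entry u n i j = true ∨ entry u n j i = true) ∧
        ∀ k < n, (entry u n i j = true → entry u n j k = true → (entry u n i k = true ∧
          (entry x n i j = true → entry x n j k = true → entry x n i k = true) ∧
          (entry x n k j = true → entry x n j i = true → entry x n k i = true))) := by
  unfold verify
  rw [List.any_eq_true]
  constructor
  · rintro ⟨n, hn, h⟩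
    simp only [check0, Bool.and_eq_true, decide_eq_true_eq, List.all_eq_true, List.mem_range] at h
    refine ⟨n, h.1, fun i hi => ?_⟩
    have h1 := h.2 i hi
    simp only [check1, Bool.and_eq_true, List.all_eq_true, List.mem_range,
      Bool.not_eq_true'] at h1
    refine ⟨h1.1, fun j hj => ?_⟩
    have h2 := h1.2 j hj
    simp only [check2, Bool.and_eq_true, Bool.or_eq_true, decide_eq_true_eq, List.all_eq_true,
      List.mem_range] at h2
    refine ⟨h2.1, fun k hk h3 h4 => ?_⟩
    have h5 := h2.2 k hk
    simp only [check3, h3, h4, Bool.and_self, Bool.not_true, Bool.false_or,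
      Bool.and_eq_true] at h5
    refine ⟨h5.1, fun h6 h7 => ?_, fun h6 h7 => ?_⟩
    · have := h5.2.1
      simpa [h6, h7] using this
    · have := h5.2.2
      simpa [h6, h7] using this
  · rintro ⟨n, hn, h⟩
    refine ⟨n, ?_, ?_⟩
    · rw [List.mem_range, Nat.lt_succ_iff]
      show n ≤ x.length
      rw [← hn]
      exact Nat.le_mul_self n
    · simp only [check0, Bool.and_eq_true, decide_eq_true_eq, List.all_eq_true, List.mem_range]
      refine ⟨hn, fun i hi => ?_⟩
      simp only [check1, Bool.and_eq_true, List.all_eq_true, List.mem_range,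
        Bool.not_eq_true']
      refine ⟨(h i hi).1, fun j hj => ?_⟩
      simp only [check2, Bool.and_eq_true, Bool.or_eq_true, decide_eq_true_eq, List.all_eq_true,
        List.mem_range]
      refine ⟨((h i hi).2 j hj).1, fun k hk => ?_⟩
      have h5 := ((h i hi).2 j hj).2 k hk
      simp only [check3, Bool.or_eq_true, Bool.and_eq_true, Bool.not_eq_true']
      by_cases h3 : entry u n i j = true
      · by_cases h4 : entry u n j k = true
        · obtain ⟨h6, h7, h8⟩ := h5 h3 h4
          right
          refine ⟨h6, ?_, ?_⟩
          · by_cases a1 : entry x n i j = true <;> by_cases a2 : entry x n j k = true <;>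
              simp_all
          · by_cases a1 : entry x n k j = true <;> by_cases a2 : entry x n j i = true <;>
              simp_all
        · left; simp [h4]
      · left; simp [h3]

theorem entry_matrixWord {n : ℕ} (A : Fin n → Fin n → Bool) {i j : ℕ} (hi : i < n) (hj : j < n) :
    entry (matrixWord n A) n i j = A ⟨i, hi⟩ ⟨j, hj⟩ := by
  rw [Bool.eq_iff_iff, entry_iff, matrixWord_getElem? n A ⟨i, hi⟩ ⟨j, hj⟩]
  simp

/-- Recognising comparability digraphs is in NP. -/
theorem inNP : InNP comparabilityDigraphs := by
  classical
  refine ⟨Polynomial.X, verify, polyTimeDecidable_of_ptime ptime_verify, fun x => ?_⟩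
  simp only [Polynomial.eval_X, verify_iff]
  constructor
  · rintro ⟨n, A, rfl, hA, lt, ho, hc⟩
    refine ⟨matrixWord n (fun i j => decide (lt i j)), by
      rw [matrixWord_length, matrixWord_length], n, (matrixWord_length n A).symm, ?_⟩
    intro i hi
    rw [entry_matrixWord _ hi hi, entry_matrixWord _ hi hi]
    refine ⟨⟨hA _, decide_eq_false (irrefl_of lt _)⟩, fun j hj => ?_⟩
    rw [entry_matrixWord _ hi hj, entry_matrixWord _ hj hi, decide_eq_true_eq, decide_eq_true_eq]
    refine ⟨?_, fun k hk => ?_⟩
    · rcases trichotomous_of lt ⟨i, hi⟩ ⟨j, hj⟩ with h | h | h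
      · exact Or.inr (Or.inl h)
      · exact Or.inl (congrArg Fin.val h)
      · exact Or.inr (Or.inr h)
    · rw [entry_matrixWord _ hj hk, entry_matrixWord _ hi hk, entry_matrixWord _ hi hj,
        entry_matrixWord _ hj hk, entry_matrixWord _ hi hk, entry_matrixWord _ hk hj,
        entry_matrixWord _ hj hi, entry_matrixWord _ hk hi, decide_eq_true_eq, decide_eq_true_eq]
      intro h1 h2
      have := hc _ _ _ h1 h2
      exact ⟨trans_of lt h1 h2, this.1, this.2⟩
  · rintro ⟨u, hu, n, hn, h⟩
    let A : Fin n → Fin n → Bool := fun i j => entry x n i j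
    have hx : x = matrixWord n A := by
      apply eq_matrixWord hn.symm
      intro i j
      have hlt : i.val * n + j.val < x.length := by
        rw [← hn]
        have h1 : i.val + 1 ≤ n := i.2
        have h2 := Nat.mul_le_mul_right n h1
        rw [Nat.add_one_mul] at h2
        have := j.2
        omega
      rw [List.getElem?_eq_getElem hlt]
      congr 1
      rw [Bool.eq_iff_iff]
      simp only [A, entry_iff]
      rw [List.getElem?_eq_getElem hlt, Option.some.injEq]
    refine ⟨n, A, hx, fun i => (h i i.2).1.1, fun i j => entry u n i j = true, ?_, ?_⟩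
    · exact
      { trichotomous := by
          intro a b h1 h2
          rcases ((h a a.2).2 b b.2).1 with h3 | h3 | h3
          · exact Fin.ext h3
          · exact absurd h3 h1
          · exact absurd h3 h2
        irrefl := by
          intro a h1
          rw [(h a a.2).1.2] at h1
          exact absurd h1 (by simp)
        trans := by
          intro a b c h1 h2
          exact (((h a a.2).2 b b.2).2 c c.2 h1 h2).1 }
    · intro a b c h1 h2
      exact (((h a a.2).2 b b.2).2 c c.2 h1 h2).2

end Pool.Agent.Lib.MP_8b4e11_lc
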