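import Pool.Agent.Lib.MP_8b4e11_lc.Defs

/-!
The word of an adjacency matrix.
-/

namespace Pool.Agent.Lib.MP_8b4e11_lc

theorem matrixWord_eq (n : ℕ) (A : Fin n → Fin n → Bool) :
    matrixWord n A = List.ofFn (fun k : Fin (n * n) => A k.divNat k.modNat) := by
  unfold matrixWord
  rw [List.ofFn_mul]
  congr 2
  funext i
  congr 1
  funext j
  have hn : 0 < n := lt_of_le_of_lt (Nat.zero_le _) j.2
  congr 1
  · apply Fin.ext
    simp only [Fin.divNat]
    rw [Nat.add_comm, Nat.add_mul_div_right _ _ hn, Nat.div_eq_of_lt j.2, Nat.zero_add]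
  · apply Fin.ext
    simp only [Fin.modNat]
    rw [Nat.add_comm, Nat.add_mul_mod_self_right, Nat.mod_eq_of_lt j.2]

theorem matrixWord_length (n : ℕ) (A : Fin n → Fin n → Bool) : (matrixWord n A).length = n * n := by
  rw [matrixWord_eq, List.length_ofFn]

theorem matrixWord_getElem? (n : ℕ) (A : Fin n → Fin n → Bool) (i j : Fin n) :
    (matrixWord n A)[i.val * n + j.val]? = some (A i j) := by
  have hn : 0 < n := lt_of_le_of_lt (Nat.zero_le _) j.2
  have hlt : i.val * n + j.val < n * n := by
    have h1 : i.val + 1 ≤ n := i.2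
    have h2 := Nat.mul_le_mul_right n h1
    rw [Nat.add_one_mul] at h2
    have := j.2
    omega
  rw [List.getElem?_eq_getElem (by rw [matrixWord_length]; exact hlt)]
  congr 1
  simp only [matrixWord_eq]
  rw [List.getElem_ofFn]
  congr 1
  · apply Fin.ext
    simp only [Fin.divNat]
    rw [Nat.add_comm, Nat.add_mul_div_right _ _ hn, Nat.div_eq_of_lt j.2, Nat.zero_add]
  · apply Fin.ext
    simp only [Fin.modNat]
    rw [Nat.add_comm, Nat.add_mul_mod_self_right, Nat.mod_eq_of_lt j.2]

theorem eq_matrixWord {n : ℕ} {A : Fin n → Fin n → Bool} {w : List Bool}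
    (hl : w.length = n * n) (h : ∀ i j : Fin n, w[i.val * n + j.val]? = some (A i j)) :
    w = matrixWord n A := by
  apply List.ext_getElem?
  intro m
  by_cases hm : m < n * n
  · have hn : 0 < n := by
      rcases Nat.eq_zero_or_pos n with h0 | h0
      · subst h0; simp at hm
      · exact h0
    have h1 : m / n < n := Nat.div_lt_of_lt_mul hm
    have h2 : m % n < n := Nat.mod_lt _ hn
    have h3 := h ⟨m / n, h1⟩ ⟨m % n, h2⟩
    have h4 := matrixWord_getElem? n A ⟨m / n, h1⟩ ⟨m % n, h2⟩
    simp only [Nat.div_add_mod'] at h3 h4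
    rw [h3, h4]
  · rw [List.getElem?_eq_none (by omega), List.getElem?_eq_none (by rw [matrixWord_length]; omega)]

theorem matrixWord_inj {n n' : ℕ} {A : Fin n → Fin n → Bool} {A' : Fin n' → Fin n' → Bool}
    (h : matrixWord n A = matrixWord n' A') : ∃ e : n = n', ∀ i j : Fin n,
      A i j = A' (Fin.cast e i) (Fin.cast e j) := by
  have e : n = n' := by
    have := congrArg List.length h
    rw [matrixWord_length, matrixWord_length] at this
    exact Nat.mul_self_inj.1 this
  subst e
  refine ⟨rfl, fun i j => ?_⟩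
  have h1 := matrixWord_getElem? n A i j
  rw [h, matrixWord_getElem?] at h1
  simpa using h1.symm

end Pool.Agent.Lib.MP_8b4e11_lc
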