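import Pool.Agent.Lib.MP_8b4e11_lc.Defs
import Pool.Agent.Lib.CookLevin.Nae

/-!
The reduction from monotone NAE-3SAT (2-colouring of 3-uniform hypergraphs, with repetitions) to
comparability digraphs: combinatorial part.
-/

namespace Pool.Agent.Lib.MP_8b4e11_lc

open Pool.Agent.CookLevin

/-- Names of the vertices of the digraph: a triple and a slot. -/
abbrev Vx (α : Type) := (α × (α × α)) × Fin 13

variable {α : Type}

/-- The hub vertex of a variable. -/
def hub (x : α) : Vx α := ((x, (x, x)), 12)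

/-- The arcs inside a gadget; slots `9, 10, 11` are the ports. -/
def coreArcs : List (Fin 13 × Fin 13) :=
  [(0, 1), (1, 0), (1, 2), (2, 1), (0, 2), (2, 0),
   (3, 0), (3, 1), (3, 6), (4, 1), (4, 2), (4, 7), (5, 0), (5, 2), (5, 8),
   (6, 0), (6, 2), (6, 9), (7, 0), (7, 1), (7, 10), (8, 1), (8, 2), (8, 11)]

/-- The slots of a gadget. -/
def coreSlots : List (Fin 13) := [0, 1, 2, 3, 4, 5, 6, 7, 8, 9, 10, 11]

/-- The arcs between ports and hubs: the port slots with the corresponding variable. -/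
def portList (T : α × (α × α)) : List (Fin 13 × α) := [(9, T.1), (10, T.2.1), (11, T.2.2)]

/-- The arcs contributed by a triple. -/
def arcsOf (T : α × (α × α)) : List (Vx α × Vx α) :=
  coreArcs.map (fun p => ((T, p.1), (T, p.2))) ++
    ((portList T).map (fun p => ((T, p.1), hub p.2)) ++
      (portList T).map (fun p => (hub p.2, (T, p.1))))

/-- The arcs of the digraph. -/
def arcs (I : List (α × (α × α))) : List (Vx α × Vx α) := I.flatMap arcsOf

/-- The vertices contributed by a triple. -/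
def vertsOf (T : α × (α × α)) : List (Vx α) :=
  coreSlots.map (fun s => (T, s)) ++ (portList T).map (fun p => hub p.2)

/-- The vertices of the digraph, with repetitions: repeated names are different vertices. -/
def verts (I : List (α × (α × α))) : List (Vx α) := I.flatMap vertsOf

theorem mem_arcs {I : List (α × (α × α))} {u v : Vx α} :
    (u, v) ∈ arcs I ↔ ∃ T ∈ I, (∃ p ∈ coreArcs, u = (T, p.1) ∧ v = (T, p.2)) ∨
      (∃ p ∈ portList T, u = (T, p.1) ∧ v = hub p.2) ∨
      (∃ p ∈ portList T, u = hub p.2 ∧ v = (T, p.1)) := by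
  unfold arcs arcsOf
  rw [List.mem_flatMap]
  refine exists_congr fun T => and_congr_right fun _ => ?_
  rw [List.mem_append, List.mem_append]
  refine or_congr ?_ (or_congr ?_ ?_)
  · rw [List.mem_map]
    constructor
    · rintro ⟨p, hp, h⟩
      exact ⟨p, hp, (congrArg Prod.fst h).symm, (congrArg Prod.snd h).symm⟩
    · rintro ⟨p, hp, h1, h2⟩
      exact ⟨p, hp, by rw [h1, h2]⟩
  · rw [List.mem_map]
    constructor
    · rintro ⟨p, hp, h⟩
      exact ⟨p, hp, (congrArg Prod.fst h).symm, (congrArg Prod.snd h).symm⟩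
    · rintro ⟨p, hp, h1, h2⟩
      exact ⟨p, hp, by rw [h1, h2]⟩
  · rw [List.mem_map]
    constructor
    · rintro ⟨p, hp, h⟩
      exact ⟨p, hp, (congrArg Prod.fst h).symm, (congrArg Prod.snd h).symm⟩
    · rintro ⟨p, hp, h1, h2⟩
      exact ⟨p, hp, by rw [h1, h2]⟩

theorem portList_slot {T : α × (α × α)} {p : Fin 13 × α} (hp : p ∈ portList T) :
    p.1 = 9 ∨ p.1 = 10 ∨ p.1 = 11 := by
  simp only [portList, List.mem_cons, List.not_mem_nil, or_false] at hp
  rcases hp with rfl | rfl | rfl <;> simp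

theorem coreArcs_slot : ∀ p ∈ coreArcs, p.1 ≠ 12 ∧ p.2 ≠ 12 ∧ p.1 ≠ 9 ∧ p.1 ≠ 10 ∧ p.1 ≠ 11 ∧
    p.1 ≠ p.2 := by decide +kernel

/-- Arcs inside the gadget of one triple. -/
theorem core_mem_arcs {I : List (α × (α × α))} {T : α × (α × α)} (hT : T ∈ I) {s t : Fin 13}
    (h : (s, t) ∈ coreArcs) : ((T, s), (T, t)) ∈ arcs I :=
  mem_arcs.2 ⟨T, hT, Or.inl ⟨(s, t), h, rfl, rfl⟩⟩

/-- Non-arcs between slots. -/
theorem not_mem_arcs {I : List (α × (α × α))} {T T' : α × (α × α)} {s t : Fin 13}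
    (h : (s, t) ∉ coreArcs) (hs : s ≠ 12) (ht : t ≠ 12) : ((T, s), (T', t)) ∉ arcs I := by
  intro hm
  rw [mem_arcs] at hm
  obtain ⟨T'', _, ⟨p, hp, h1, h2⟩ | ⟨p, hp, h1, h2⟩ | ⟨p, hp, h1, h2⟩⟩ := hm
  · apply h
    have e1 : s = p.1 := congrArg Prod.snd h1
    have e2 : t = p.2 := congrArg Prod.snd h2
    rw [e1, e2]
    exact hp
  · exact ht (congrArg Prod.snd h2)
  · exact hs (congrArg Prod.snd h1)

/-- Non-arcs from a slot to a hub. -/
theorem not_mem_arcs_hub {I : List (α × (α × α))} {T : α × (α × α)} {s : Fin 13} {x : α}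
    (h9 : s ≠ 9) (h10 : s ≠ 10) (h11 : s ≠ 11) (h12 : s ≠ 12) :
    ((T, s), hub x) ∉ arcs I := by
  intro hm
  rw [mem_arcs] at hm
  obtain ⟨T'', _, ⟨p, hp, h1, h2⟩ | ⟨p, hp, h1, h2⟩ | ⟨p, hp, h1, h2⟩⟩ := hm
  · have := coreArcs_slot p hp
    exact this.2.1 (congrArg Prod.snd h2).symm
  · have e1 : s = p.1 := congrArg Prod.snd h1
    rcases portList_slot hp with h | h | h
    · exact h9 (e1.trans h)
    · exact h10 (e1.trans h)
    · exact h11 (e1.trans h)
  · exact h12 (congrArg Prod.snd h1)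

/-! ### From an ordering to a colouring -/

section forward

variable {I : List (α × (α × α))} {n : ℕ} {vs : Fin n → Vx α} {lt : Fin n → Fin n → Prop}

/-- The forcing rule: the middle vertex of a 2-path without chord is not between the ends. -/
theorem forcing (h : IsComparabilityOrdering (fun i j => (vs i, vs j) ∈ arcs I) lt)
    {a b c : Fin n} (h1 : (vs a, vs b) ∈ arcs I) (h2 : (vs b, vs c) ∈ arcs I)
    (h3 : (vs a, vs c) ∉ arcs I) (hab : a ≠ b) (hbc : b ≠ c) : lt b a ↔ lt b c := by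
  obtain ⟨ho, hc⟩ := h
  rcases trichotomous_of lt a b with hab' | hab' | hab'
  · rcases trichotomous_of lt b c with hbc' | hbc' | hbc'
    · exact absurd ((hc a b c hab' hbc').1 h1 h2) h3
    · exact absurd hbc' hbc
    · exact ⟨fun h => absurd (trans_of lt h hab') (irrefl_of lt b),
        fun h => absurd (trans_of lt h hbc') (irrefl_of lt b)⟩
  · exact absurd hab' hab
  · rcases trichotomous_of lt b c with hbc' | hbc' | hbc'
    · exact ⟨fun _ => hbc', fun _ => hab'⟩
    · exact absurd hbc' hbc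
    · exact absurd ((hc c b a hbc' hab').2 h1 h2) h3

theorem flip_iff (h : IsComparabilityOrdering (fun i j => (vs i, vs j) ∈ arcs I) lt)
    {a b : Fin n} (hab : a ≠ b) : ¬ lt a b ↔ lt b a := by
  obtain ⟨ho, hc⟩ := h
  rcases trichotomous_of lt a b with hab' | hab' | hab'
  · exact ⟨fun h => absurd hab' h, fun h => absurd (trans_of lt h hab') (irrefl_of lt b)⟩
  · exact absurd hab' hab
  · exact ⟨fun _ => hab', fun _ h => absurd (trans_of lt h hab') (irrefl_of lt a)⟩

end forward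

theorem naesat_of_ordering {I : List (α × (α × α))} {n : ℕ} {vs : Fin n → Vx α}
    {lt : Fin n → Fin n → Prop}
    (h : IsComparabilityOrdering (fun i j => (vs i, vs j) ∈ arcs I) lt)
    (hvs : ∀ v ∈ verts I, ∃ i, vs i = v) : NAESat I := by
  classical
  have ho := h.1
  -- indices of the vertices
  have hcore : ∀ T ∈ I, ∀ s ∈ coreSlots, ∃ i, vs i = (T, s) := fun T hT s hs =>
    hvs _ (List.mem_flatMap.2 ⟨T, hT, List.mem_append_left _ (List.mem_map.2 ⟨s, hs, rfl⟩)⟩)
  have hhub : ∀ T ∈ I, ∀ p ∈ portList T, ∃ i, vs i = hub p.2 := fun T hT p hp =>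
    hvs _ (List.mem_flatMap.2 ⟨T, hT, List.mem_append_right _ (List.mem_map.2 ⟨p, hp, rfl⟩)⟩)
  -- the colouring
  refine ⟨fun x => ∃ T ∈ I, ∃ p ∈ portList T, p.2 = x ∧ ∃ i j, vs i = hub x ∧ vs j = (T, p.1) ∧
    lt i j, ?_⟩
  -- independence of the choices
  have hind : ∀ (T T' : α × (α × α)) (p p' : Fin 13 × α) (i i' j j' : Fin n), T ∈ I → T' ∈ I →
      p ∈ portList T → p' ∈ portList T' → p.2 = p'.2 → vs i = hub p.2 → vs i' = hub p.2 →
      vs j = (T, p.1) → vs j' = (T', p'.1) → (lt i j ↔ lt i' j') := by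
    intro T T' p p' i i' j j' hT hT' hp hp' hpp hi hi' hj hj'
    have hne : ∀ (k : Fin n) (S : α × (α × α)) (q : Fin 13 × α) (l : Fin n), q ∈ portList S →
        vs k = hub p.2 → vs l = (S, q.1) → k ≠ l := by
      intro k S q l hq hk hl hkl
      rw [hkl, hl] at hk
      have : q.1 = 12 := congrArg Prod.snd hk
      rcases portList_slot hq with h | h | h <;> rw [h] at this <;> exact absurd this (by decide)
    -- step 1: i j ~ i j'
    have s1 : lt i j ↔ lt i j' := by
      refine forcing h (a := j) (b := i) (c := j') ?_ ?_ ?_ ?_ ?_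
      · rw [hj, hi]
        exact mem_arcs.2 ⟨T, hT, Or.inr (Or.inl ⟨p, hp, rfl, rfl⟩)⟩
      · rw [hj', hi, hpp]
        exact mem_arcs.2 ⟨T', hT', Or.inr (Or.inr ⟨p', hp', rfl, rfl⟩)⟩
      · rw [hj, hj']
        apply not_mem_arcs
        · intro hm
          have := coreArcs_slot _ hm
          rcases portList_slot hp with h | h | h <;> simp [h] at this
        · rcases portList_slot hp with h | h | h <;> rw [h] <;> decide
        · rcases portList_slot hp' with h | h | h <;> rw [h] <;> decide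
      · exact (hne i T p j hp hi hj).symm
      · exact hne i T' p' j' hp' hi hj'
    -- step 2: i j' ~ i' j'
    have s2 : lt i j' ↔ lt i' j' := by
      have : lt j' i ↔ lt j' i' := by
        refine forcing h (a := i) (b := j') (c := i') ?_ ?_ ?_ ?_ ?_
        · rw [hj', hi, hpp]
          exact mem_arcs.2 ⟨T', hT', Or.inr (Or.inr ⟨p', hp', rfl, rfl⟩)⟩
        · rw [hj', hi', hpp]
          exact mem_arcs.2 ⟨T', hT', Or.inr (Or.inl ⟨p', hp', rfl, rfl⟩)⟩
        · rw [hi, hi']
          intro hm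
          rw [mem_arcs] at hm
          obtain ⟨S, _, ⟨q, hq, h1, h2⟩ | ⟨q, hq, h1, h2⟩ | ⟨q, hq, h1, h2⟩⟩ := hm
          · exact (coreArcs_slot q hq).1 (congrArg Prod.snd h1).symm
          · have e : (12 : Fin 13) = q.1 := congrArg Prod.snd h1
            rcases portList_slot hq with h | h | h <;> rw [h] at e <;>
              exact absurd e (by decide)
          · have e : (12 : Fin 13) = q.1 := congrArg Prod.snd h2
            rcases portList_slot hq with h | h | h <;> rw [h] at e <;>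
              exact absurd e (by decide)
        · exact hne i T' p' j' hp' hi hj'
        · exact (hne i' T' p' j' hp' hi' hj').symm
      rw [← flip_iff h (hne i T' p' j' hp' hi hj').symm,
        ← flip_iff h (hne i' T' p' j' hp' hi' hj').symm, this]
    exact s1.trans s2
  -- value of the colouring at a port
  have hval : ∀ T ∈ I, ∀ p ∈ portList T, ∀ i j, vs i = hub p.2 → vs j = (T, p.1) →
      ((∃ T' ∈ I, ∃ p' ∈ portList T', p'.2 = p.2 ∧ ∃ i j, vs i = hub p.2 ∧ vs j = (T', p'.1) ∧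
        lt i j) ↔ lt i j) := by
    intro T hT p hp i j hi hj
    constructor
    · rintro ⟨T', hT', p', hp', hpp, i', j', hi', hj', hl⟩
      exact (hind T' T p' p i' i j' j hT' hT hp' hp hpp (by rw [hpp]; exact hi')
        (by rw [hpp]; exact hi) hj' hj).1 hl
    · intro hl
      exact ⟨T, hT, p, hp, rfl, i, j, hi, hj, hl⟩
  -- distinct names have distinct indices
  have hne : ∀ {a b : Fin n} {u v : Vx α}, vs a = u → vs b = v → u ≠ v → a ≠ b := by
    intro a b u v ha hb huv hab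
    exact huv (ha ▸ hb ▸ hab ▸ rfl)
  intro T hT
  -- choose indices
  have hex : ∀ s : Fin 13, ∃ i, s ∈ coreSlots → vs i = (T, s) := by
    intro s
    by_cases hs : s ∈ coreSlots
    · obtain ⟨i, hi⟩ := hcore T hT s hs
      exact ⟨i, fun _ => hi⟩
    · obtain ⟨i, hi⟩ := hcore T hT 0 (by decide)
      exact ⟨i, fun h => absurd h hs⟩
  choose g hg using hex
  have hgne : ∀ s t : Fin 13, s ∈ coreSlots → t ∈ coreSlots → s ≠ t → g s ≠ g t :=
    fun s t hs ht hst => hne (hg s hs) (hg t ht) (fun h => hst (congrArg Prod.snd h))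
  -- forcing between slots
  have force : ∀ a b c : Fin 13, a ∈ coreSlots ∧ b ∈ coreSlots ∧ c ∈ coreSlots ∧
      (a, b) ∈ coreArcs ∧ (b, c) ∈ coreArcs ∧ (a, c) ∉ coreArcs ∧ a ≠ b ∧ b ≠ c ∧ a ≠ 12 ∧
        c ≠ 12 → (lt (g b) (g a) ↔ lt (g b) (g c)) := by
    rintro a b c ⟨ha, hb, hc, h1, h2, h3, h4, h5, h6, h7⟩
    refine forcing h ?_ ?_ ?_ (hgne _ _ ha hb h4) (hgne _ _ hb hc h5)
    · rw [hg a ha, hg b hb]; exact core_mem_arcs hT h1
    · rw [hg b hb, hg c hc]; exact core_mem_arcs hT h2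
    · rw [hg a ha, hg c hc]; exact not_mem_arcs h3 h6 h7
  have fl : ∀ a b : Fin 13, a ∈ coreSlots ∧ b ∈ coreSlots ∧ a ≠ b →
      (¬ lt (g a) (g b) ↔ lt (g b) (g a)) :=
    fun a b ⟨ha, hb, hab⟩ => flip_iff h (hgne a b ha hb hab)
  -- hubs
  have hubforce : ∀ (s q : Fin 13) (x : α), (q, x) ∈ portList T →
      (s ∈ coreSlots ∧ q ∈ coreSlots ∧ (s, q) ∈ coreArcs ∧ s ≠ 9 ∧ s ≠ 10 ∧ s ≠ 11 ∧ s ≠ 12 ∧
        s ≠ q) →
      ((∃ T' ∈ I, ∃ p' ∈ portList T', p'.2 = x ∧ ∃ i j, vs i = hub x ∧ vs j = (T', p'.1) ∧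
        lt i j) ↔ lt (g s) (g q)) := by
    rintro s q x hp' ⟨hs, hps, hsp, h9, h10, h11, h12, hsne⟩
    obtain ⟨p, hp, rfl, rfl⟩ : ∃ p ∈ portList T, p.1 = q ∧ p.2 = x := ⟨(q, x), hp', rfl, rfl⟩
    obtain ⟨i, hi⟩ := hhub T hT p hp
    rw [hval T hT p hp i (g p.1) hi (hg _ hps)]
    have hine : i ≠ g p.1 := by
      refine hne hi (hg _ hps) fun h => ?_
      have : (12 : Fin 13) = p.1 := congrArg Prod.snd h
      rcases portList_slot hp with h | h | h <;> rw [h] at this <;> exact absurd this (by decide)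
    have e : lt (g p.1) (g s) ↔ lt (g p.1) i := by
      refine forcing h ?_ ?_ ?_ (hgne _ _ hs hps hsne) hine.symm
      · rw [hg s hs, hg _ hps]; exact core_mem_arcs hT hsp
      · rw [hg _ hps, hi]
        exact mem_arcs.2 ⟨T, hT, Or.inr (Or.inl ⟨p, hp, rfl, rfl⟩)⟩
      · rw [hg s hs, hi]; exact not_mem_arcs_hub h9 h10 h11 h12
    rw [← flip_iff h (hgne s p.1 hs hps hsne).symm, ← flip_iff h hine.symm, e]
  have c9 := hubforce 6 9 T.1 (by simp [portList]) (by decide +kernel)
  have c10 := hubforce 7 10 T.2.1 (by simp [portList]) (by decide +kernel)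
  have c11 := hubforce 8 11 T.2.2 (by simp [portList]) (by decide +kernel)
  change ¬ (((∃ T' ∈ I, ∃ p' ∈ portList T', p'.2 = T.1 ∧ _) ↔
    (∃ T' ∈ I, ∃ p' ∈ portList T', p'.2 = T.2.1 ∧ _)) ∧
    ((∃ T' ∈ I, ∃ p' ∈ portList T', p'.2 = T.2.1 ∧ _) ↔
    (∃ T' ∈ I, ∃ p' ∈ portList T', p'.2 = T.2.2 ∧ _)))
  rw [c9, c10, c11]
  -- forced relations
  have a1 := force 3 6 9 (by decide +kernel)
  have a2 := force 3 6 2 (by decide +kernel)
  have a3 := force 6 2 1 (by decide +kernel)
  have a4 := fl 6 2 (by decide +kernel)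
  have a4' := fl 1 2 (by decide +kernel)
  have b1 := force 4 7 10 (by decide +kernel)
  have b2 := force 4 7 0 (by decide +kernel)
  have b3 := force 7 0 2 (by decide +kernel)
  have b4 := fl 7 0 (by decide +kernel)
  have b4' := fl 2 0 (by decide +kernel)
  have d1 := force 5 8 11 (by decide +kernel)
  have d2 := force 5 8 1 (by decide +kernel)
  have d3 := force 8 1 0 (by decide +kernel)
  have d4 := fl 8 1 (by decide +kernel)
  have d4' := fl 0 1 (by decide +kernel)
  have e1 : lt (g 6) (g 9) ↔ lt (g 1) (g 2) :=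
    (a1.symm.trans a2).trans (not_iff_not.1 (a4.trans (a3.trans a4'.symm)))
  have e2 : lt (g 7) (g 10) ↔ lt (g 2) (g 0) :=
    (b1.symm.trans b2).trans (not_iff_not.1 (b4.trans (b3.trans b4'.symm)))
  have e3 : lt (g 8) (g 11) ↔ lt (g 0) (g 1) :=
    (d1.symm.trans d2).trans (not_iff_not.1 (d4.trans (d3.trans d4'.symm)))
  rw [e1, e2, e3]
  rintro ⟨h1, h2⟩
  by_cases h0 : lt (g 0) (g 1)
  · have h20 := h2.2 h0
    have h12 := h1.2 h20
    exact irrefl_of lt (g 0) (trans_of lt h0 (trans_of lt h12 h20))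
  · have h20 : ¬ lt (g 2) (g 0) := fun h => h0 (h2.1 h)
    have h12 : ¬ lt (g 1) (g 2) := fun h => h20 (h1.1 h)
    rw [fl 0 1 (by decide)] at h0
    rw [fl 2 0 (by decide)] at h20
    rw [fl 1 2 (by decide)] at h12
    exact irrefl_of lt (g 0) (trans_of lt h20 (trans_of lt h12 h0))

/-! ### From a colouring to an ordering -/

/-- Ranks of the slots of a gadget whose ports have the values `x, y, z`. -/
def rk (x y z : Bool) : Fin 13 → ℕ := fun s =>
  let core : List ℕ := match x, y, z with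
    | false, false, true => [10, 16, 13, 14, 11, 17, 18, 15, 12]
    | false, true, false => [16, 13, 10, 11, 17, 14, 15, 12, 18]
    | false, true, true => [13, 16, 10, 11, 14, 17, 18, 12, 15]
    | true, false, false => [13, 10, 16, 17, 14, 11, 12, 18, 15]
    | true, false, true => [10, 13, 16, 17, 11, 14, 15, 18, 12]
    | true, true, false => [16, 10, 13, 14, 17, 11, 12, 15, 18]
    | _, _, _ => []
  if s = 9 then (if x then 50 else 5)
  else if s = 10 then (if y then 50 else 5)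
  else if s = 11 then (if z then 50 else 5)
  else if s = 12 then (if x then 0 else 100)
  else core.getD s.val 0

theorem rk_core1 : ∀ x y z : Bool, ¬ (x = y ∧ y = z) →
    ∀ p ∈ coreArcs, rk x y z p.1 ≠ rk x y z p.2 := by decide +kernel

theorem rk_core2 : ∀ x y z : Bool, ¬ (x = y ∧ y = z) →
    ∀ p ∈ coreArcs, ∀ q ∈ coreArcs, p.2 = q.1 → (p.1, q.2) ∉ coreArcs →
      (rk x y z p.1 < rk x y z p.2 ↔ rk x y z q.2 < rk x y z p.2) := by decide +kernel

theorem rk_core9 : ∀ x y z : Bool, ¬ (x = y ∧ y = z) →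
    ∀ s : Fin 13, (s, 9) ∈ coreArcs → (rk x y z s < rk x y z 9 ↔ x = true) := by decide +kernel

theorem rk_core10 : ∀ x y z : Bool, ¬ (x = y ∧ y = z) →
    ∀ s : Fin 13, (s, 10) ∈ coreArcs → (rk x y z s < rk x y z 10 ↔ y = true) := by
  decide +kernel

theorem rk_core11 : ∀ x y z : Bool, ¬ (x = y ∧ y = z) →
    ∀ s : Fin 13, (s, 11) ∈ coreArcs → (rk x y z s < rk x y z 11 ↔ z = true) := by
  decide +kernel

theorem rk9 (x y z : Bool) : rk x y z 9 = if x then 50 else 5 := rfl
theorem rk10 (x y z : Bool) : rk x y z 10 = if y then 50 else 5 := rfl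
theorem rk11 (x y z : Bool) : rk x y z 11 = if z then 50 else 5 := rfl
theorem rk12 (x y z : Bool) : rk x y z 12 = if x then 0 else 100 := rfl

/-- Rank of a vertex name. -/
noncomputable def rank (f : α → Bool) (v : Vx α) : ℕ := rk (f v.1.1) (f v.1.2.1) (f v.1.2.2) v.2

theorem rank_hub (f : α → Bool) (x : α) : rank f (hub x) = if f x then 0 else 100 :=
  rk12 _ _ _

theorem rank_port (f : α → Bool) {T : α × (α × α)} {p : Fin 13 × α} (hp : p ∈ portList T) :
    rank f (T, p.1) = if f p.2 then 50 else 5 := by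
  simp only [portList, List.mem_cons, List.not_mem_nil, or_false] at hp
  rcases hp with rfl | rfl | rfl
  · exact rk9 _ _ _
  · exact rk10 _ _ _
  · exact rk11 _ _ _

theorem rank_core_port (f : α → Bool) {T : α × (α × α)} {p : Fin 13 × α} (hp : p ∈ portList T)
    (hT : ¬ (f T.1 = f T.2.1 ∧ f T.2.1 = f T.2.2)) {s : Fin 13} (hs : (s, p.1) ∈ coreArcs) :
    rank f (T, s) < rank f (T, p.1) ↔ f p.2 = true := by
  simp only [portList, List.mem_cons, List.not_mem_nil, or_false] at hp
  rcases hp with rfl | rfl | rfl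
  · exact rk_core9 _ _ _ hT s hs
  · exact rk_core10 _ _ _ hT s hs
  · exact rk_core11 _ _ _ hT s hs

theorem rank_adj (f : α → Bool) {I : List (α × (α × α))}
    (hI : ∀ T ∈ I, ¬ (f T.1 = f T.2.1 ∧ f T.2.1 = f T.2.2)) {u v : Vx α}
    (h : (u, v) ∈ arcs I) : rank f u ≠ rank f v := by
  rw [mem_arcs] at h
  obtain ⟨T, hT, ⟨p, hp, rfl, rfl⟩ | ⟨p, hp, rfl, rfl⟩ | ⟨p, hp, rfl, rfl⟩⟩ := h
  · exact rk_core1 _ _ _ (hI T hT) p hp
  · rw [rank_port f hp, rank_hub]
    cases f p.2 <;> simp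
  · rw [rank_port f hp, rank_hub]
    cases f p.2 <;> simp

theorem port_unique {T : α × (α × α)} {p q : Fin 13 × α} (hp : p ∈ portList T)
    (hq : q ∈ portList T) (h : p.1 = q.1) : p = q := by
  simp only [portList, List.mem_cons, List.not_mem_nil, or_false] at hp hq
  rcases hp with rfl | rfl | rfl <;> rcases hq with rfl | rfl | rfl <;>
    first | rfl | simp at h

theorem rank_path (f : α → Bool) {I : List (α × (α × α))}
    (hI : ∀ T ∈ I, ¬ (f T.1 = f T.2.1 ∧ f T.2.1 = f T.2.2)) {u v w : Vx α}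
    (h1 : (u, v) ∈ arcs I) (h2 : (v, w) ∈ arcs I) (h3 : (u, w) ∉ arcs I) :
    rank f u < rank f v ↔ rank f w < rank f v := by
  rw [mem_arcs] at h1 h2
  obtain ⟨T, hT, h1⟩ := h1
  obtain ⟨T', hT', h2⟩ := h2
  rcases h1 with ⟨p, hp, rfl, rfl⟩ | ⟨p, hp, rfl, rfl⟩ | ⟨p, hp, rfl, rfl⟩
  · -- core arc first
    rcases h2 with ⟨q, hq, e, rfl⟩ | ⟨q, hq, e, rfl⟩ | ⟨q, hq, e, rfl⟩
    · have eT : T = T' := congrArg Prod.fst e
      subst eT
      have e2 : p.2 = q.1 := congrArg Prod.snd e
      refine rk_core2 _ _ _ (hI T hT) p hp q hq e2 fun hm => h3 ?_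
      exact core_mem_arcs hT hm
    · have eT : T = T' := congrArg Prod.fst e
      subst eT
      have e2 : p.2 = q.1 := congrArg Prod.snd e
      have hp' : (p.1, q.1) ∈ coreArcs := by rw [← e2]; exact hp
      rw [e2, rank_core_port f hq (hI T hT) hp', rank_port f hq, rank_hub]
      cases f q.2 <;> simp
    · have e2 : p.2 = 12 := congrArg Prod.snd e
      exact absurd e2 (coreArcs_slot p hp).2.1
  · -- port to hub first
    rcases h2 with ⟨q, hq, e, rfl⟩ | ⟨q, hq, e, rfl⟩ | ⟨q, hq, e, rfl⟩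
    · have e2 : (12 : Fin 13) = q.1 := congrArg Prod.snd e
      exact absurd e2.symm (coreArcs_slot q hq).1
    · have e2 : (12 : Fin 13) = q.1 := congrArg Prod.snd e
      rcases portList_slot hq with h | h | h <;> rw [h] at e2 <;> exact absurd e2 (by decide)
    · have e2 : p.2 = q.2 := congrArg (fun t : Vx α => t.1.1) e
      rw [rank_port f hp, rank_port f hq, e2]
  · -- hub to port first
    rcases h2 with ⟨q, hq, e, rfl⟩ | ⟨q, hq, e, rfl⟩ | ⟨q, hq, e, rfl⟩
    · have e2 : p.1 = q.1 := congrArg Prod.snd e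
      have := coreArcs_slot q hq
      rcases portList_slot hp with h | h | h <;> rw [h] at e2 <;> simp [← e2] at this
    · have eT : T = T' := congrArg Prod.fst e
      subst eT
      have e2 : p.1 = q.1 := congrArg Prod.snd e
      rw [port_unique hp hq e2]
    · have e2 : p.1 = 12 := congrArg Prod.snd e
      rcases portList_slot hp with h | h | h <;> rw [h] at e2 <;> exact absurd e2 (by decide)

theorem ordering_of_naesat {I : List (α × (α × α))} {n : ℕ} {vs : Fin n → Vx α}
    (hI : NAESat I) :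
    ∃ lt : Fin n → Fin n → Prop, IsComparabilityOrdering (fun i j => (vs i, vs j) ∈ arcs I) lt := by
  classical
  obtain ⟨f', hf'⟩ := hI
  let f : α → Bool := fun x => decide (f' x)
  have hf : ∀ T ∈ I, ¬ (f T.1 = f T.2.1 ∧ f T.2.1 = f T.2.2) := by
    intro T hT h
    apply hf' T hT
    simpa [f] using h
  let lt : Fin n → Fin n → Prop := fun i j => rank f (vs i) < rank f (vs j) ∨
    (rank f (vs i) = rank f (vs j) ∧ i < j)
  have hlt : IsStrictTotalOrder (Fin n) lt :=
    { trichotomous := by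
        intro a b h1 h2
        simp only [lt, not_or, not_and, not_lt] at h1 h2
        have e : rank f (vs a) = rank f (vs b) := le_antisymm h2.1 h1.1
        exact le_antisymm (h2.2 e.symm) (h1.2 e)
      irrefl := by
        intro a h
        rcases h with h | ⟨_, h⟩ <;> exact lt_irrefl _ h
      trans := by
        intro a b c h1 h2
        rcases h1 with h1 | ⟨h1, h1'⟩ <;> rcases h2 with h2 | ⟨h2, h2'⟩
        · exact Or.inl (h1.trans h2)
        · exact Or.inl (h2 ▸ h1)
        · exact Or.inl (h1 ▸ h2)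
        · exact Or.inr ⟨h1.trans h2, h1'.trans h2'⟩ }
  have hle : ∀ a b, lt a b → rank f (vs a) ≤ rank f (vs b) := by
    intro a b h
    rcases h with h | ⟨h, _⟩
    · exact h.le
    · exact h.le
  refine ⟨lt, hlt, fun x y z hxy hyz => ⟨fun h1 h2 => ?_, fun h1 h2 => ?_⟩⟩
  · by_contra h3
    have h4 := rank_path f hf h1 h2 h3
    have h5 := rank_adj f hf h1
    have h6 := rank_adj f hf h2
    have := hle _ _ hxy
    have := hle _ _ hyz
    omega
  · by_contra h3
    have h4 := rank_path f hf h1 h2 h3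
    have h5 := rank_adj f hf h1
    have h6 := rank_adj f hf h2
    have := hle _ _ hxy
    have := hle _ _ hyz
    omega

/-- Correctness of the reduction. -/
theorem ordering_iff (I : List (α × (α × α))) {n : ℕ} (vs : Fin n → Vx α)
    (hvs : ∀ v ∈ verts I, ∃ i, vs i = v) :
    (∃ lt : Fin n → Fin n → Prop,
      IsComparabilityOrdering (fun i j => (vs i, vs j) ∈ arcs I) lt) ↔ NAESat I :=
  ⟨fun ⟨_, h⟩ => naesat_of_ordering h hvs, fun h => ordering_of_naesat h⟩

theorem arcs_irrefl (I : List (α × (α × α))) (u : Vx α) : (u, u) ∉ arcs I := by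
  intro h
  rw [mem_arcs] at h
  obtain ⟨T, hT, ⟨p, hp, h1, h2⟩ | ⟨p, hp, h1, h2⟩ | ⟨p, hp, h1, h2⟩⟩ := h
  · rw [h1] at h2
    exact (coreArcs_slot p hp).2.2.2.2.2 (congrArg Prod.snd h2)
  · rw [h1] at h2
    have e2 : p.1 = 12 := congrArg Prod.snd h2
    rcases portList_slot hp with h | h | h <;> rw [h] at e2 <;> exact absurd e2 (by decide)
  · rw [h2] at h1
    have e2 : p.1 = 12 := congrArg Prod.snd h1
    rcases portList_slot hp with h | h | h <;> rw [h] at e2 <;> exact absurd e2 (by decide)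

end Pool.Agent.Lib.MP_8b4e11_lc
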