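import Pool.Agent.Lib.MP_8b4e11_lc.Comb
import Pool.Agent.Lib.MP_8b4e11_lc.Matrix
import Pool.Agent.Lib.CookLevin.Main
import Pool.Agent.Lib.CookLevin.Raw

/-!
Recognising comparability digraphs is NP-hard.
-/

namespace Pool.Agent.Lib.MP_8b4e11_lc

open Pool.Agent.CookLevin Pool.Agent.PolyTime

instance : Enc (Fin 13) := ⟨fun i => enc i.val⟩

instance : EncInj (Fin 13) := ⟨fun _ _ h => Fin.val_injective (EncInj.inj h)⟩

section
variable {α : Type} [DecidableEq α]

/-- The adjacency matrix of the digraph of a NAE-3SAT instance. -/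
def wordOf (I : List (α × (α × α))) : List Bool :=
  (verts I).flatMap fun u => (verts I).map fun v => decide ((u, v) ∈ arcs I)

theorem wordOf_eq (I : List (α × (α × α))) : wordOf I = matrixWord (verts I).length
    (fun i j => decide (((verts I).get i, (verts I).get j) ∈ arcs I)) := by
  unfold wordOf matrixWord
  have h : ∀ (l : List (Vx α)) {β : Type} (g : Vx α → β),
      List.ofFn (fun i => g (l.get i)) = l.map g := by
    intro l β g
    change List.ofFn (g ∘ l.get) = _
    rw [← List.map_ofFn, List.ofFn_get]
  rw [h (verts I) (fun u => List.ofFn fun j => decide ((u, (verts I).get j) ∈ arcs I)),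
    List.flatMap_def]
  congr 2
  funext u
  exact (h (verts I) (fun v => decide ((u, v) ∈ arcs I))).symm

theorem wordOf_mem (I : List (α × (α × α))) : wordOf I ∈ comparabilityDigraphs ↔ NAESat I := by
  have hvs : ∀ v ∈ verts I, ∃ i, (verts I).get i = v := fun v hv => List.get_of_mem hv
  constructor
  · rintro ⟨n, A, hw, _, lt, hlt⟩
    rw [wordOf_eq] at hw
    obtain ⟨e, hA⟩ := matrixWord_inj hw
    subst e
    have hA' : ∀ i j, A i j = decide (((verts I).get i, (verts I).get j) ∈ arcs I) := fun i j =>
      (hA i j).symm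
    refine (ordering_iff I (verts I).get hvs).1 ⟨lt, hlt.1, fun x y z hxy hyz => ?_⟩
    have := hlt.2 x y z hxy hyz
    simpa only [hA', decide_eq_true_eq] using this
  · intro h
    obtain ⟨lt, hlt⟩ := (ordering_iff I (verts I).get hvs).2 h
    refine ⟨_, _, wordOf_eq I, fun i => ?_, lt, hlt.1, fun x y z hxy hyz => ?_⟩
    · exact decide_eq_false (arcs_irrefl I _)
    · have := hlt.2 x y z hxy hyz
      simpa only [decide_eq_true_eq] using this

end

section
variable {α : Type} [Enc α] [EncInj α] [DecidableEq α]

omit [EncInj α] [DecidableEq α] in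
theorem ptime_portList : PTime (portList : α × (α × α) → _) := by
  unfold portList
  exact ((PTime.const (9 : Fin 13)).pair PTime.fst).cons
    (((PTime.const (10 : Fin 13)).pair (PTime.fst.comp PTime.snd)).cons
    (((PTime.const (11 : Fin 13)).pair (PTime.snd.comp PTime.snd)).cons (PTime.const [])))

omit [EncInj α] [DecidableEq α] in
theorem ptime_hub {β : Type} [Enc β] {f : β → α} (hf : PTime f) :
    PTime (fun b => hub (f b)) := by
  unfold hub
  exact (hf.pair (hf.pair hf)).pair (PTime.const 12)

omit [EncInj α] [DecidableEq α] in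
theorem ptime_arcsOf : PTime (arcsOf : α × (α × α) → _) := by
  unfold arcsOf
  refine PTime.append ?_ (PTime.append ?_ ?_)
  · exact PTime.mapConst coreArcs fun p _ =>
      (PTime.id.pair (PTime.const p.1)).pair (PTime.id.pair (PTime.const p.2))
  · refine PTime.map (g := fun (T : α × (α × α)) (p : Fin 13 × α) => ((T, p.1), hub p.2))
      ptime_portList ?_
    exact (PTime.fst.pair (PTime.fst.comp PTime.snd)).pair (ptime_hub (PTime.snd.comp PTime.snd))
  · refine PTime.map (g := fun (T : α × (α × α)) (p : Fin 13 × α) => (hub p.2, (T, p.1)))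
      ptime_portList ?_
    exact (ptime_hub (PTime.snd.comp PTime.snd)).pair (PTime.fst.pair (PTime.fst.comp PTime.snd))

omit [EncInj α] [DecidableEq α] in
theorem ptime_arcs : PTime (arcs : List (α × (α × α)) → _) := by
  unfold arcs
  exact PTime.flatMap (g := fun (_ : List (α × (α × α))) T => arcsOf T) PTime.id
    (ptime_arcsOf.comp PTime.snd)

omit [EncInj α] [DecidableEq α] in
theorem ptime_verts : PTime (verts : List (α × (α × α)) → _) := by
  unfold verts
  refine PTime.flatMap (g := fun (_ : List (α × (α × α))) T => vertsOf T) PTime.id ?_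
  have h : PTime (vertsOf : α × (α × α) → _) := by
    unfold vertsOf
    refine PTime.append ?_ ?_
    · exact PTime.mapConst coreSlots fun s _ => PTime.id.pair (PTime.const s)
    · exact PTime.map (g := fun (_ : α × (α × α)) (p : Fin 13 × α) => hub p.2)
        ptime_portList (ptime_hub (PTime.snd.comp PTime.snd))
  exact h.comp PTime.snd

theorem ptime_wordOf : PTime (wordOf : List (α × (α × α)) → _) := by
  unfold wordOf
  refine PTime.flatMap (g := fun (I : List (α × (α × α))) (u : Vx α) =>
    (verts I).map fun v => decide ((u, v) ∈ arcs I)) ptime_verts ?_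
  refine PTime.map (g := fun (p : List (α × (α × α)) × Vx α) (v : Vx α) =>
    decide ((p.2, v) ∈ arcs p.1)) (ptime_verts.comp PTime.fst) ?_
  have h1 : PTime (fun q : (List (α × (α × α)) × Vx α) × Vx α => (q.1.2, q.2)) :=
    (PTime.snd.comp PTime.fst).pair PTime.snd
  have h2 : PTime (fun q : (List (α × (α × α)) × Vx α) × Vx α => arcs q.1.1) :=
    ptime_arcs.comp (PTime.fst.comp PTime.fst)
  exact (PTime.mem h1 h2).of_eq fun _ => decide_eq_decide.2 Iff.rfl

end

/-- Recognising comparability digraphs is NP-hard. -/
theorem npHard : NPHard comparabilityDigraphs := by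
  intro L hL
  obtain ⟨F, hF, hFL⟩ := cook_levin hL
  refine ⟨fun x => wordOf (nae3 (F x)),
    polyTimeComputable_of_ptime (ptime_wordOf.comp (ptime_nae3.comp hF)), fun x => ?_⟩
  rw [hFL, nae3_iff, wordOf_mem]

end Pool.Agent.Lib.MP_8b4e11_lc
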